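import Pool.Agent.K3h46.AS.Stm3
import Pool.Agent.K3h17.AS.HEN

set_option autoImplicit false
set_option linter.unusedTactic false

namespace Pool.Agent.K3h40.AS

open Pool.Agent.K3h46.AS Pool.Agent.K3h17.AS

variable {F κ : Type} [Field F] [Field κ]

theorem evz_sum (ι : Polynomial F →+* κ) (z : LaurentSeries κ) (P : Polynomial (Polynomial F))
    (d : ℕ) (hd : P.natDegree ≤ d) :
    evz ι z P = ∑ i ∈ Finset.range (d + 1), HahnSeries.C (ι (P.coeff i)) * z ^ i := by
  unfold evz
  rw [Polynomial.coe_eval₂RingHom, Polynomial.eval₂_eq_sum_range' _ (Nat.lt_succ_of_le hd)]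
  rfl

theorem t_HENP : S_HENP := by
  intro p hp d F _ _ P hd hdp hf hl κ _ _ ι hι
  set φ : κ := ι (P.coeff d) with hφ
  have hφ0 : φ ≠ 0 := by
    rw [hφ]
    exact fun h => hl (hι (by rw [h, map_zero]))
  obtain ⟨k, hk⟩ := hdp
  have hp1 : 2 ≤ p := hp.out.two_le
  have hkk : (p - 1) / d = k := by
    rw [hk]
    exact Nat.mul_div_cancel_left k hd
  have hdκ : (d : κ) ≠ 0 := by
    intro h
    rw [CharP.cast_eq_zero_iff κ p] at h
    have h1 : p ≤ d := Nat.le_of_dvd hd h
    have h2 : 0 < k := by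
      rcases Nat.eq_zero_or_pos k with h3 | h3
      · rw [h3] at hk
        omega
      · exact h3
    have h3 : d ≤ d * k := Nat.le_mul_of_pos_right d h2
    omega
  set A : κ := φ ^ (k * (p + 1)) with hA
  set e : ℕ → κ := fun i => ι (P.coeff i) with he
  set c : ℕ → κ := fun i => e i * A ^ i * (φ ^ (p ^ 2))⁻¹ with hc
  set b : κ := φ ^ p * (φ ^ (p ^ 2))⁻¹ with hb
  set t : PowerSeries κ := -1 + PowerSeries.C b * PowerSeries.X ^ (d * (p - 1)) with ht
  set a : ℕ → PowerSeries κ := fun i =>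
    PowerSeries.C (c i) * PowerSeries.X ^ (p * (d - i)) + (if i = 0 then t else 0) with ha
  have hdp0 : d * (p - 1) ≠ 0 := Nat.mul_ne_zero hd.ne' (by omega)
  obtain ⟨y, hy1, hy⟩ := hens d hd hdκ a (by
      intro i hi hid
      have h1 : p * (d - i) ≠ 0 := Nat.mul_ne_zero (by omega) (by omega)
      simp [ha, hi.ne', h1]) (by
      have h1 : p * (d - 0) ≠ 0 := Nat.mul_ne_zero (by omega) (by omega)
      have h2 : p ≠ 0 := by omega
      simp [ha, ht, hdp0, hd.ne', h2])
  set Y : LaurentSeries κ := HahnSeries.ofPowerSeries ℤ κ y with hY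
  set x : LaurentSeries κ := HahnSeries.single (-(p : ℤ)) A * Y with hx
  set T : LaurentSeries κ := HahnSeries.single (-((p : ℤ) * d)) (φ ^ (p ^ 2)) with hT
  -- the equation over the Laurent series
  have hYeq : Y ^ d + ∑ i ∈ Finset.range d, HahnSeries.ofPowerSeries ℤ κ (a i) * Y ^ i = 0 := by
    have := congrArg (HahnSeries.ofPowerSeries ℤ κ) hy
    simpa [map_add, map_sum, map_mul, map_pow] using this
  have hφ2 : φ ^ (p ^ 2) ≠ 0 := pow_ne_zero _ hφ0
  have hA1 : φ * A ^ d = φ ^ (p ^ 2) := by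
    rw [hA, ← pow_mul, ← pow_succ']
    congr 1
    obtain ⟨q, rfl⟩ : ∃ q, p = q + 1 := ⟨p - 1, by omega⟩
    have h1 : q = d * k := by simpa using hk
    have h2 : k * (q + 1 + 1) * d = (d * k) * (q + 2) := by ring
    rw [h2, ← h1]
    ring
  have hxi : ∀ i : ℕ, x ^ i = HahnSeries.single (-((p : ℤ) * i)) (A ^ i) * Y ^ i := by
    intro i
    rw [hx, mul_pow, HahnSeries.single_pow]
    congr 2
    rw [nsmul_eq_mul]
    push_cast
    ring
  have hterm : ∀ i ∈ Finset.range d, HahnSeries.C (e i) * x ^ i =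
      T * (HahnSeries.ofPowerSeries ℤ κ (PowerSeries.C (c i) * PowerSeries.X ^ (p * (d - i))) *
        Y ^ i) := by
    intro i hi
    rw [Finset.mem_range] at hi
    rw [hxi, map_mul, HahnSeries.ofPowerSeries_C, HahnSeries.ofPowerSeries_X_pow, hT,
      HahnSeries.C_apply, HahnSeries.C_apply, ← mul_assoc, ← mul_assoc, HahnSeries.single_mul_single,
      HahnSeries.single_mul_single, HahnSeries.single_mul_single]
    congr 2
    · push_cast [Nat.cast_sub hi.le]
      ring
    · rw [hc]
      field_simp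
  have hlast : HahnSeries.C (e d) * x ^ d = T * Y ^ d := by
    rw [hxi, hT, HahnSeries.C_apply, ← mul_assoc, HahnSeries.single_mul_single]
    congr 2
    ring
  have htt : T * HahnSeries.ofPowerSeries ℤ κ t = -T + HahnSeries.single (-(d : ℤ)) (φ ^ p) := by
    rw [ht, map_add, map_neg, map_one, map_mul, HahnSeries.ofPowerSeries_C,
      HahnSeries.ofPowerSeries_X_pow, mul_add, hT, HahnSeries.C_apply,
      HahnSeries.single_mul_single, HahnSeries.single_mul_single]
    congr 1
    · ring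
    · have h1 : -((p : ℤ) * d) + (0 + ((d * (p - 1) : ℕ) : ℤ)) = -(d : ℤ) := by
        push_cast [Nat.cast_sub (by omega : 1 ≤ p)]
        ring
      rw [h1, hb]
      congr 1
      field_simp
  refine ⟨x, ?_, ?_, ?_⟩
  · intro n hn
    have h1 : n = (n + p) + (-(p : ℤ)) := by ring
    rw [hx, h1, HahnSeries.coeff_single_mul_add]
    have h2 : Y.coeff (n + p) = 0 := by
      rw [hY]
      refine HahnSeries.embDomain_of_notMem_range ?_
      rintro ⟨m, hm⟩
      have : (m : ℤ) = n + p := hm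
      omega
    rw [h2, mul_zero]
  · have h1 := HahnSeries.coeff_single_mul_add (r := A) (x := Y) (a := (0 : ℤ)) (b := -(p : ℤ))
    rw [zero_add] at h1
    rw [hkk, hx, h1]
    have h2 : Y.coeff 0 = 1 := by
      rw [hY]
      have h3 := HahnSeries.ofPowerSeries_apply_coeff (Γ := ℤ) y 0
      rw [← hy1]
      simpa using h3
    rw [h2, mul_one]
  · rw [evz_sum ι x P d hf, Finset.sum_range_succ]
    change ∑ i ∈ Finset.range d, HahnSeries.C (e i) * x ^ i + HahnSeries.C (e d) * x ^ d = _
    rw [Finset.sum_congr rfl hterm, ← Finset.mul_sum, hlast, HahnSeries.single_pow]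
    have h1 : ∑ i ∈ Finset.range d, HahnSeries.ofPowerSeries ℤ κ (a i) * Y ^ i =
        ∑ i ∈ Finset.range d,
          HahnSeries.ofPowerSeries ℤ κ (PowerSeries.C (c i) * PowerSeries.X ^ (p * (d - i))) * Y ^ i +
        HahnSeries.ofPowerSeries ℤ κ t := by
      simp only [ha, map_add, add_mul, Finset.sum_add_distrib]
      congr 1
      rw [Finset.sum_eq_single 0]
      · simp
      · intro i _ h0
        simp [h0]
      · intro h
        exact absurd (Finset.mem_range.2 hd) h
    rw [h1] at hYeq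
    have h2 : p • (-(d : ℤ)) = -((p : ℤ) * d) := by
      rw [nsmul_eq_mul]
      ring
    have h3 : (φ ^ p) ^ p = φ ^ (p ^ 2) := by
      rw [← pow_mul, sq]
    rw [h2, h3, ← hT]
    set S := ∑ i ∈ Finset.range d,
          HahnSeries.ofPowerSeries ℤ κ (PowerSeries.C (c i) * PowerSeries.X ^ (p * (d - i))) * Y ^ i
    have h4 : T * S + T * Y ^ d = T * (Y ^ d + (S + HahnSeries.ofPowerSeries ℤ κ t)) -
        T * HahnSeries.ofPowerSeries ℤ κ t := by ring
    rw [h4, hYeq, htt]
    ring

end Pool.Agent.K3h40.AS
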