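import Pool.Agent.K3h46.AS.Stm3

set_option autoImplicit false
set_option linter.unusedTactic false

namespace Pool.Agent.K3h40.AS

open Pool.Agent.K3h46.AS

/-- The weights exist. -/
theorem wt_exists (M L : ℕ) (hM : 0 < M) (hL : 0 < L) : ∃ W : Wt, M = W.g * W.m ∧ L = W.g * W.n ∧
    W.g = Nat.gcd M L ∧ W.d = Nat.lcm M L := by
  have hg : 0 < Nat.gcd M L := Nat.gcd_pos_of_pos_left L hM
  obtain ⟨m, n, hco, hm, hn⟩ := Nat.exists_coprime M L
  set g := Nat.gcd M L with hgdef
  have hm0 : 0 < m := by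
    rcases Nat.eq_zero_or_pos m with h | h
    · rw [h, zero_mul] at hm; omega
    · exact h
  have hn0 : 0 < n := by
    rcases Nat.eq_zero_or_pos n with h | h
    · rw [h, zero_mul] at hn; omega
    · exact h
  -- `al * n ≡ 1 mod m`
  obtain ⟨al, be, hab⟩ : ∃ al be : ℕ, al * n = be * m + 1 := by
    rcases Nat.lt_or_ge 1 m with h1 | h1
    · obtain ⟨k, hk⟩ := Nat.exists_mul_mod_eq_one_of_coprime hco.symm h1
      refine ⟨k, n * k / m, ?_⟩
      have h2 := Nat.div_add_mod (n * k) m
      rw [hk.2] at h2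
      rw [mul_comm k n, mul_comm (n * k / m) m]
      exact h2.symm
    · have h2 : m = 1 := by omega
      refine ⟨1, n - 1, ?_⟩
      rw [h2]
      omega
  refine ⟨⟨m, n, g, al, be, hm0, hn0, hg, hab⟩, ?_, ?_, rfl, ?_⟩
  · simp only; rw [hm]; ring
  · simp only; rw [hn]; ring
  · unfold Wt.d
    simp only
    have h3 : g * Nat.lcm M L = M * L := Nat.gcd_mul_lcm M L
    have h4 : g * (g * m * n) = M * L := by
      conv_rhs => rw [hm, hn]
      ring
    exact Nat.eq_of_mul_eq_mul_left hg (h4.trans h3.symm)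

theorem t_TOPW : S_TOPW := by
  intro M L hM hL
  obtain ⟨W, h1, h2, h3, h4⟩ := wt_exists M L hM hL
  refine ⟨W, h1, h2, h3, h4, ?_⟩
  intro F _ f hf
  have hg := W.hg
  have hm := W.hm
  have hn := W.hn
  -- the weight of the other monomials
  have hw : ∀ s ∈ f.support, s ≠ Finsupp.single 0 M → s ≠ Finsupp.single 1 L →
      W.n * s 0 + W.m * s 1 < W.d := by
    intro s hs hs0 hs1
    have h5 := hf s hs hs0 hs1
    have h6 : W.g * (W.n * s 0 + W.m * s 1) < W.g * W.d := by
      have e1 : W.g * (W.n * s 0 + W.m * s 1) = L * s 0 + M * s 1 := by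
        rw [h2, h1]; ring
      have e2 : W.g * W.d = M * L := by
        rw [h2, h1]; unfold Wt.d; ring
      rw [e1, e2]; exact h5
    exact lt_of_mul_lt_mul_left h6 (Nat.zero_le _)
  have hw0 : W.n * (Finsupp.single 0 M : Fin 2 →₀ ℕ) 0 + W.m * (Finsupp.single 0 M : Fin 2 →₀ ℕ) 1 =
      W.d := by
    simp [Wt.d]
    rw [h1]; ring
  have hw1 : W.n * (Finsupp.single 1 L : Fin 2 →₀ ℕ) 0 + W.m * (Finsupp.single 1 L : Fin 2 →₀ ℕ) 1 =
      W.d := by
    simp [Wt.d]
    rw [h2]; ring
  have hv0 : W.be * (Finsupp.single 0 M : Fin 2 →₀ ℕ) 0 +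
      W.al * (Finsupp.single 0 M : Fin 2 →₀ ℕ) 1 = W.be * W.m * W.g := by
    simp
    rw [h1]; ring
  have hv1 : W.be * (Finsupp.single 1 L : Fin 2 →₀ ℕ) 0 +
      W.al * (Finsupp.single 1 L : Fin 2 →₀ ℕ) 1 = W.be * W.m * W.g + W.g := by
    simp
    rw [h2]
    calc W.al * (W.g * W.n) = (W.al * W.n) * W.g := by ring
      _ = (W.be * W.m + 1) * W.g := by rw [W.hab]
      _ = _ := by ring
  constructor
  · rw [toZ_natDegree]
    intro s hs
    by_cases hs0 : s = Finsupp.single 0 M
    · rw [hs0, hw0]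
    · by_cases hs1 : s = Finsupp.single 1 L
      · rw [hs1, hw1]
      · exact (hw s hs hs0 hs1).le
  · ext e
    have c0 := toZ_coeff W f (Finsupp.single 0 M)
    have c1 := toZ_coeff W f (Finsupp.single 1 L)
    rw [hw0, hv0] at c0
    rw [hw1, hv1] at c1
    have ht : (topW W (f.coeff (Finsupp.single 0 M)) (f.coeff (Finsupp.single 1 L))).coeff e =
        (if e = W.be * W.m * W.g then f.coeff (Finsupp.single 0 M) else 0) +
        (if e = W.be * W.m * W.g + W.g then f.coeff (Finsupp.single 1 L) else 0) := by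
      have : topW W (f.coeff (Finsupp.single 0 M)) (f.coeff (Finsupp.single 1 L)) =
          Polynomial.C (f.coeff (Finsupp.single 0 M)) * Polynomial.X ^ (W.be * W.m * W.g) +
          Polynomial.C (f.coeff (Finsupp.single 1 L)) * Polynomial.X ^ (W.be * W.m * W.g + W.g) := by
        unfold topW
        rw [pow_add]
        ring
      rw [this, Polynomial.coeff_add, Polynomial.coeff_C_mul_X_pow, Polynomial.coeff_C_mul_X_pow]
    rw [ht]
    by_cases he0 : e = W.be * W.m * W.g
    · rw [if_pos he0, if_neg (by omega), add_zero, he0, c0]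
    · by_cases he1 : e = W.be * W.m * W.g + W.g
      · rw [if_neg he0, if_pos he1, zero_add, he1, c1]
      · rw [if_neg he0, if_neg he1, add_zero]
        refine toZ_coeff_zero W f W.d e ?_
        rintro s hs ⟨h5, h6⟩
        by_cases hs0 : s = Finsupp.single 0 M
        · rw [hs0, hv0] at h6
          exact he0 h6.symm
        · by_cases hs1 : s = Finsupp.single 1 L
          · rw [hs1, hv1] at h6
            exact he1 h6.symm
          · exact absurd h5 (hw s hs hs0 hs1).ne

end Pool.Agent.K3h40.AS
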